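import Pool.Agent.TH377.NC.Emb

/-!
# Norm-form curves in one-parameter families over number fields
-/

set_option autoImplicit false
set_option maxHeartbeats 400000
set_option linter.unusedSectionVars false

namespace Pool.Agent.N168.NC

open Polynomial NumberField IsDedekindDomain Pool.Agent.TH377.NC Pool.Agent.TH377.LocG
  Pool.Agent.TH120.Sec Pool.Agent.W620.SC
open scoped Matrix

universe u v w x y

/-- transversality over any algebraically closed field -/
theorem nd_lift' {K : Type u} [Field K] {B : Type w} [Field B] [Algebra K B]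
    {R : Type v} [Field R] [Algebra K R] [Algebra R B] [IsScalarTower K R B] [IsAlgClosed B]
    (h : K[X]) (h0 : h ≠ 0) (P : Fin 3 → K[X]) (Q : MvPolynomial (Fin 3) K)
    (htr : ∀ θ θ' : AlgebraicClosure K, aeval θ h = 0 → aeval θ' h = 0 → θ ≠ θ' →
      MvPolynomial.aeval ((fun j => aeval θ (P j)) ⨯₃ (fun j => aeval θ' (P j))) Q ≠ 0)
    (θ θ' : B) (hθ : aeval θ h = 0) (hθ' : aeval θ' h = 0) (hne : θ ≠ θ') :
    MvPolynomial.eval₂ (algebraMap R B) ((fun j => aeval θ ((P j).map (algebraMap K R))) ⨯₃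
      (fun j => aeval θ' ((P j).map (algebraMap K R))))
      (MvPolynomial.map (algebraMap K R) Q) ≠ 0 := by
  classical
  let ι : AlgebraicClosure K →ₐ[K] B := IsAlgClosed.lift
  have hroot : ∀ t : B, aeval t h = 0 → ∃ r : AlgebraicClosure K, aeval r h = 0 ∧ ι r = t := by
    intro t ht
    have hsp : (h.map (algebraMap K (AlgebraicClosure K))).Splits := IsAlgClosed.splits _
    have h0' : h.map (algebraMap K B) ≠ 0 := Polynomial.map_ne_zero h0
    have h1 : t ∈ (h.map (algebraMap K B)).roots := by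
      rw [mem_roots h0', IsRoot.def, eval_map_algebraMap]
      exact ht
    have h2 : h.map (algebraMap K B) = (h.map (algebraMap K (AlgebraicClosure K))).map
          (ι : AlgebraicClosure K →+* B) := by
      rw [Polynomial.map_map, AlgHom.comp_algebraMap]
    rw [h2, hsp.roots_map, Multiset.mem_map] at h1
    obtain ⟨r, hr, hrt⟩ := h1
    refine ⟨r, ?_, hrt⟩
    rw [mem_roots (Polynomial.map_ne_zero h0), IsRoot.def, eval_map_algebraMap] at hr
    exact hr
  obtain ⟨r, hr, hrθ⟩ := hroot θ hθ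
  obtain ⟨r', hr', hrθ'⟩ := hroot θ' hθ'
  have hrr : r ≠ r' := by
    rintro rfl
    exact hne (hrθ.symm.trans hrθ')
  have h1 := htr r r' hr hr' hrr
  intro h2
  apply h1
  apply (ι : AlgebraicClosure K →+* B).injective
  rw [map_zero, MvPolynomial.aeval_def, MvPolynomial.hom_eval₂]
  rw [MvPolynomial.eval₂_map, ← IsScalarTower.algebraMap_eq K R B] at h2
  rw [AlgHom.comp_algebraMap]
  convert h2 using 2
  funext k
  have e1 := map_cross (ι : AlgebraicClosure K →+* B) (fun j => aeval r (P j))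
    (fun j => aeval r' (P j)) k
  have e2 : ∀ (s : AlgebraicClosure K) (s' : B), ι s = s' →
      (fun j => (ι : AlgebraicClosure K →+* B) (aeval s (P j))) =
        fun j => aeval s' ((P j).map (algebraMap K R)) := by
    intro s s' hs
    funext j
    change ι (aeval s (P j)) = _
    rw [aeval_map_algebraMap, ← aeval_algHom_apply, hs]
  rw [e2 r θ hrθ, e2 r' θ' hrθ'] at e1
  exact e1.symm

section

variable {K : Type u} [Field K] [NumberField K] {L : Type y} [Field L] [NumberField L]
  [Algebra K L] (v : HeightOneSpectrum (𝓞 K)) (D : ℕ) (hD : D ≠ 0)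
  (hL : ¬ D ∣ Module.finrank K L) (g : (𝓞 K)[X]) (hg : g.Monic)
  (hs : (g.map (Ideal.Quotient.mk v.asIdeal)).Separable)
  (hcyc : ∀ n : ℕ, ¬ Nat.gcd 2 D * D ∣ n → IsCoprime (X ^ (Ideal.absNorm v.asIdeal ^ n) - X)
    (g.map (Ideal.Quotient.mk v.asIdeal)))
  (b : 𝓞 K) (hb : b ∈ v.asIdeal) (hb' : b ∉ v.asIdeal ^ 2)
  (h : K[X]) (hh : g.map (algebraMap (𝓞 K) K) = h) (n q : ℕ) (hDn : D ∣ n)
  (hnq : n * q = h.natDegree) (hd0 : h.natDegree ≠ 0) (P : Fin 3 → K[X])
  (Q : MvPolynomial (Fin 3) K) (hQ : Q.IsHomogeneous q)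
  (htr : ∀ θ θ' : AlgebraicClosure K, aeval θ h = 0 → aeval θ' h = 0 → θ ≠ θ' →
      MvPolynomial.aeval ((fun j => aeval θ (P j)) ⨯₃ (fun j => aeval θ' (P j))) Q ≠ 0)

include hD hL hg hs hcyc hb hb' hh hDn hnq hd0 hQ htr

/-- no points and no sections -/
theorem nf_both :
    (∀ x : Fin 3 → L, x ≠ 0 → ((h.aroots (AlgebraicClosure L)).map fun θ =>
        ∑ j, aeval θ (P j) * algebraMap L (AlgebraicClosure L) (x j)).prod ≠
      algebraMap K (AlgebraicClosure L) (algebraMap (𝓞 K) K b) *
        MvPolynomial.aeval (fun j => algebraMap L (AlgebraicClosure L) (x j)) Q ^ n) ∧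
    ∀ (F : Type v) (Ω : Type w) [Field F] [Field Ω] [Algebra L F] [Algebra F Ω] [Algebra L Ω]
      [Algebra K Ω] [IsScalarTower L F Ω] [IsScalarTower K L Ω] [IsAlgClosure F Ω]
      (x : Fin 3 → F) (U : Set (ValuationSubring F)), x ≠ 0 →
      ((h.aroots Ω).map fun θ => ∑ j, aeval θ (P j) * algebraMap F Ω (x j)).prod =
        algebraMap K Ω (algebraMap (𝓞 K) K b) *
          MvPolynomial.aeval (fun j => algebraMap F Ω (x j)) Q ^ n →
      (∀ O ∈ U, ∀ c : L, algebraMap L F c ∈ O) → IsEmpty (GSection L F Ω U) := by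
  obtain ⟨ℓ, hℓ0, hℓD, B, _, _, _, _, hfr, f, hf, hfK, hfs, hfd, ϖ, t, m, hϖ, ht, hm, hbt⟩ :=
    nf_data (K := K) (L := L) v D hD hL g hg hs hcyc b hb hb'
  have hh0 : h ≠ 0 := by
    rintro rfl
    exact hd0 natDegree_zero
  obtain ⟨n', rfl⟩ := hℓD.trans hDn
  have hn' : 0 < n' := by
    rcases Nat.eq_zero_or_pos n' with h' | h'
    · rw [h', mul_zero, zero_mul] at hnq
      exact absurd hnq.symm hd0
    · exact h'
  have hfL : f.map (algebraMap B L) = h.map (algebraMap K L) := by
    rw [hfK, ← hh, Polynomial.map_map]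
    rfl
  have hfdeg : f.natDegree = n' * ℓ * q := by
    have h1 : (f.map (algebraMap B L)).natDegree = f.natDegree := hf.natDegree_map _
    rw [← h1, hfL, natDegree_map, ← hnq]
    ring
  have hQL : (MvPolynomial.map (algebraMap K L) Q).IsHomogeneous q := hQ.map _
  have hbL : algebraMap K L (algebraMap (𝓞 K) K b) = algebraMap B L t * algebraMap B L ϖ ^ m := by
    rw [← hbt]
    rfl
  refine ⟨?_, ?_⟩
  · intro x hx hon
    have hst : IsScalarTower K L (AlgebraicClosure L) := inferInstance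
    refine local_point (A := B) (k := L) (kb := AlgebraicClosure L) ℓ hℓ0 f hf hfs hfd ϖ hϖ
      (algebraMap K L (algebraMap (𝓞 K) K b)) t ht m hm hbL
      (fun j => (P j).map (algebraMap K L))
      (MvPolynomial.map (algebraMap K L) Q) q hQL ?_ x hx n' hn' ?_
    · intro θ θ' hθ hθ' hne
      rw [hfL, aeval_map_algebraMap] at hθ hθ'
      exact nd_lift' h hh0 P Q htr θ θ' hθ hθ' hne
    · rw [hfL, Polynomial.map_map, ← IsScalarTower.algebraMap_eq K L (AlgebraicClosure L)]
      simp only [aeval_map_algebraMap]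
      change _ = ((h.aroots (AlgebraicClosure L)).map fun θ => _).prod
      rw [hon, ← IsScalarTower.algebraMap_apply, mul_comm n' ℓ]
      congr 2
      rw [MvPolynomial.aeval_def, MvPolynomial.eval₂_map, MvPolynomial.hom_eval₂,
        RingHom.id_comp, ← IsScalarTower.algebraMap_eq]
  · intro F Ω _ _ _ _ _ _ _ _ _ x U hx hon hU
    have hcl : IsAlgClosed Ω := IsAlgClosure.isAlgClosed F
    have halg : Algebra.IsAlgebraic F Ω := IsAlgClosure.isAlgebraic
    have hac : IsAlgClosure L (algebraicClosure L Ω) := inferInstance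
    have hkb : IsAlgClosed (algebraicClosure L Ω) := hac.1
    refine local_section (A := B) (k := L) ℓ hℓ0 f hf hfs hfd ϖ hϖ
      (algebraMap K L (algebraMap (𝓞 K) K b)) t ht m hm hbL U hU
      (fun j => (P j).map (algebraMap K L))
      (MvPolynomial.map (algebraMap K L) Q) q hQL ?_ x hx n' hn' hfdeg ?_
    · intro θ θ' hθ hθ' hne
      rw [hfL, aeval_map_algebraMap] at hθ hθ'
      exact nd_lift' h hh0 P Q htr θ θ' hθ hθ' hne
    · rw [hfL, Polynomial.map_map, ← IsScalarTower.algebraMap_eq K L Ω]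
      simp only [aeval_map_algebraMap]
      change _ = ((h.aroots Ω).map fun θ => _).prod
      rw [hon, ← IsScalarTower.algebraMap_apply, mul_comm n' ℓ]
      congr 2
      rw [MvPolynomial.aeval_def, MvPolynomial.eval₂_map, MvPolynomial.hom_eval₂,
        ← RingHom.comp_assoc, ← IsScalarTower.algebraMap_eq L F Ω,
        ← IsScalarTower.algebraMap_eq K L Ω]

end

end Pool.Agent.N168.NC
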